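import Pool.Agent.H675R4.HL.Stmts

/-!
# Task Sub of the project H675-HL
-/

set_option autoImplicit false

namespace H675HL.H99

open H675HL

/-- a subloop of a finite automorphic loop is an automorphic loop -/
abbrev subAL {Q : Type} [AL Q] [Finite Q] (S : Set Q) (hS : Sub S) : AL S where
  mul a b := ⟨a.1 * b.1, hS.2 _ a.2 _ b.2⟩
  one := ⟨1, hS.1⟩
  one_mul' a := Subtype.ext (AL.one_mul' a.1)
  mul_one' a := Subtype.ext (AL.mul_one' a.1)
  bijL a := by
    refine Finite.injective_iff_bijective.1 (fun x y h => Subtype.ext ?_)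
    exact (AL.bijL a.1).1 (congrArg Subtype.val h)
  bijR a := by
    refine Finite.injective_iff_bijective.1 (fun x y h => Subtype.ext ?_)
    exact (AL.bijR a.1).1 (congrArg Subtype.val h)
  autL x y u v a b h1 h2 :=
    Subtype.ext (AL.autL x.1 y.1 u.1 v.1 a.1 b.1 (congrArg Subtype.val h1)
      (congrArg Subtype.val h2))
  autR x y u v a b h1 h2 :=
    Subtype.ext (AL.autR x.1 y.1 u.1 v.1 a.1 b.1 (congrArg Subtype.val h1)
      (congrArg Subtype.val h2))
  autT x u v a b h1 h2 :=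
    Subtype.ext (AL.autT x.1 u.1 v.1 a.1 b.1 (congrArg Subtype.val h1)
      (congrArg Subtype.val h2))

theorem taskSub : TaskSub := by
  intro Q _ _ S P hgood hS hne hIH
  letI : AL S := subAL S hS
  have hval : ∀ a b : S, ((a * b : S) : Q) = a.1 * b.1 := fun _ _ => rfl
  have hcard : Nat.card S < Nat.card Q := by
    have h1 := Set.ncard_lt_ncard (Set.ssubset_univ_iff.2 hne) (Set.toFinite _)
    rw [Set.ncard_univ] at h1
    exact h1
  have hg : Good S := by
    obtain ⟨K, hK, f, hsol, h1, h2, h3⟩ := hgood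
    refine ⟨K, hK, fun x => f x.1, hsol, ?_, ?_, ?_⟩
    · intro x y
      exact h1 x.1 y.1
    · intro x y hx hy
      exact Subtype.ext (h2 x.1 y.1 hx hy)
    · intro x y z hx hy hz
      exact Subtype.ext (h3 x.1 y.1 z.1 hx hy hz)
  obtain ⟨H, -, hH, k, hk, hp1, hp2⟩ := hIH S hcard hg
  have hcH : Nat.card (Subtype.val '' H : Set Q) = Nat.card H :=
    Nat.card_image_of_injective Subtype.val_injective H
  refine ⟨Subtype.val '' H, ?_, ⟨⟨1, hH.1, rfl⟩, ?_⟩, k, ?_, ?_, hp2⟩
  · rintro _ ⟨x, -, rfl⟩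
    exact x.2
  · rintro _ ⟨x, hx, rfl⟩ _ ⟨y, hy, rfl⟩
    exact ⟨x * y, hH.2 x hx y hy, rfl⟩
  · rw [hcH, hk]
    exact Nat.card_congr (Equiv.Set.univ _)
  · rw [hcH]
    exact hp1

end H675HL.H99
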